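import Pool.Agent.W223.PL.Stms

/-! The square root is parametrised by its own deviation from one. -/

namespace Pool.Agent.W215.PL.PP1

open Polynomial Pool.Agent.W223.HZ Pool.Agent.W223.PL

noncomputable section

lemma cf (j : ℕ) : ∀ k, |(((C 2 * X + X ^ 2 : ℝ[X])) ^ j).coeff k| ≤ 3 ^ j := by
  induction j with
  | zero =>
    intro k
    simp only [pow_zero, coeff_one]
    split_ifs <;> simp
  | succ j ih =>
    intro k
    have h : ((C 2 * X + X ^ 2 : ℝ[X])) ^ (j + 1) =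
        C 2 * ((C 2 * X + X ^ 2 : ℝ[X]) ^ j * X ^ 1) + (C 2 * X + X ^ 2 : ℝ[X]) ^ j * X ^ 2 := by
      ring
    rw [h, coeff_add, coeff_C_mul, coeff_mul_X_pow', coeff_mul_X_pow']
    have h3 : (0 : ℝ) ≤ 3 ^ j := by positivity
    have a1 : |(if 1 ≤ k then ((C 2 * X + X ^ 2 : ℝ[X]) ^ j).coeff (k - 1) else 0)| ≤ 3 ^ j := by
      split_ifs
      · exact ih _
      · simp
    have a2 : |(if 2 ≤ k then ((C 2 * X + X ^ 2 : ℝ[X]) ^ j).coeff (k - 2) else 0)| ≤ 3 ^ j := by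
      split_ifs
      · exact ih _
      · simp
    rw [show (3 : ℝ) ^ (j + 1) = 3 ^ j * 3 from pow_succ _ _]
    rw [abs_le] at a1 a2 ⊢
    constructor <;> linarith [a1.1, a1.2, a2.1, a2.2]

theorem t : Pool.Agent.W223.PL.StmtPP1 := by
  refine ⟨4, by norm_num, ?_⟩
  intro L e ι τ d₀ y hd hL h4 hτ hy m
  have hd0 : (1 : ℝ) ≤ (d₀ : ℝ) := by exact_mod_cast hd
  have hdp : (0 : ℝ) < (d₀ : ℝ) := by linarith
  have hpos : ∀ i, 0 ≤ ((d₀ : ℝ) + τ i) / d₀ := by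
    intro i
    apply div_nonneg _ hdp.le
    have := (abs_le.1 (hτ i)).1
    linarith
  have hsq : ∀ i, √(((d₀ : ℝ) + τ i) / d₀) ^ 2 = ((d₀ : ℝ) + τ i) / d₀ :=
    fun i => Real.sq_sqrt (hpos i)
  refine ⟨fun j => (C 2 * X + X ^ 2 : ℝ[X]) ^ (j : ℕ), 1, 1, fun _ => 1,
    fun i => √(((d₀ : ℝ) + τ i) / d₀) - 1, fun i => y i - √(((d₀ : ℝ) + τ i) / d₀),
    ?_, ?_, by norm_num, by norm_num, ?_, ?_, ?_, ?_, ?_⟩
  · intro j
    refine natDegree_pow_le.trans ?_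
    have h2 : (C 2 * X + X ^ 2 : ℝ[X]).natDegree ≤ 2 := by compute_degree
    have hj := j.2
    calc (j : ℕ) * (C 2 * X + X ^ 2 : ℝ[X]).natDegree ≤ (j : ℕ) * 2 := Nat.mul_le_mul_left _ h2
      _ ≤ 3 * m := by omega
  · intro j k
    refine (cf j k).trans ?_
    calc (3 : ℝ) ^ (j : ℕ) ≤ 4 ^ (j : ℕ) := by gcongr; norm_num
      _ ≤ 4 ^ m := pow_le_pow_right₀ (by norm_num) j.2.le
  · intro i
    have : (1 : ℝ) ≤ 4 ^ m := one_le_pow₀ (by norm_num)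
    simpa using this
  · intro i
    have hs := hsq i
    have hs0 : 0 ≤ √(((d₀ : ℝ) + τ i) / d₀) := Real.sqrt_nonneg _
    set s := √(((d₀ : ℝ) + τ i) / d₀) with hsdef
    have e1 : (s - 1) * (s + 1) = τ i / d₀ := by
      have : ((d₀ : ℝ) + τ i) / d₀ = 1 + τ i / d₀ := by field_simp
      rw [this] at hs
      nlinarith
    have e2 : |s - 1| ≤ |(s - 1) * (s + 1)| := by
      rw [abs_mul]
      have : 1 ≤ |s + 1| := by rw [abs_of_nonneg (by linarith)]; linarith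
      nlinarith [abs_nonneg (s - 1)]
    have e3 : |(τ i : ℝ) / d₀| ≤ L / d₀ := by
      rw [abs_div, abs_of_pos hdp]
      gcongr
      exact hτ i
    have e4 : 0 ≤ L / (d₀ : ℝ) := by positivity
    rw [e1] at e2
    show |s - 1| ≤ 4 * (L / d₀)
    linarith
  · intro i
    have h := hy i
    have h0 : 0 ≤ e := (abs_nonneg _).trans h
    show |y i - √(((d₀ : ℝ) + τ i) / d₀)| ≤ 4 * e
    linarith
  · intro i j
    have hs := hsq i
    show 1 * (τ i : ℝ) ^ (j : ℕ) = (d₀ : ℝ) ^ (j : ℕ) *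
      ((C 2 * X + X ^ 2 : ℝ[X]) ^ (j : ℕ)).eval (√(((d₀ : ℝ) + τ i) / d₀) - 1)
    rw [eval_pow, ← mul_pow, one_mul]
    congr 1
    simp only [eval_add, eval_mul, eval_C, eval_X, eval_pow]
    have e1 : 2 * (√(((d₀ : ℝ) + τ i) / d₀) - 1) + (√(((d₀ : ℝ) + τ i) / d₀) - 1) ^ 2 =
        √(((d₀ : ℝ) + τ i) / d₀) ^ 2 - 1 := by ring
    rw [e1, hs]
    field_simp
    ring
  · intro i
    show y i = 1 + 1 * (√(((d₀ : ℝ) + τ i) / d₀) - 1) + (y i - √(((d₀ : ℝ) + τ i) / d₀))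
    ring

end

end Pool.Agent.W215.PL.PP1
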